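import Mathlib
import Pool.Agent.Helper702.FreePCP.Final

set_option autoImplicit false

namespace Pool.Agent.Results.MP_d61eec_lc.FreeGroupPCPUndecidable

/-- A tuple of words over the letters `a_0^{±1}, …, a_{m-1}^{±1}` (`(j, true)` is the letter `a_j`
and `(j, false)` is its inverse), one for each generator of the free group of rank `n`. -/
abbrev Tuple (n m : ℕ) : Type := Fin n → List (Fin m × Bool)

/-- The homomorphism from the free group of rank `n` to the free group of rank `m` which sends the
`i`-th generator to the element given by the `i`-th word. -/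
def homOf {n m : ℕ} (w : Tuple n m) : FreeGroup (Fin n) →* FreeGroup (Fin m) :=
  FreeGroup.lift fun i => FreeGroup.mk (w i)

/-- **The Post correspondence problem for free groups is undecidable**, already for fixed ranks:
there are `n` and `m` such that no algorithm, given two homomorphisms from the free group of rank
`n` to the free group of rank `m` (each as a tuple of reduced words), decides whether they agree on
some nontrivial element. -/
theorem result : ∃ n m : ℕ, 1 ≤ n ∧ 1 ≤ m ∧
    ¬ ∃ f : Tuple n m × Tuple n m → Bool, Computable f ∧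
      ∀ φ ψ : Tuple n m, (∀ i, FreeGroup.IsReduced (φ i)) → (∀ i, FreeGroup.IsReduced (ψ i)) →
        (f (φ, ψ) = true ↔ ∃ x : FreeGroup (Fin n), x ≠ 1 ∧ homOf φ x = homOf ψ x) := by
  obtain ⟨n, m, hn, hm, h⟩ := Pool.Agent.Helper702.FreePCP.main
  refine ⟨n, m, hn, hm, ?_⟩
  rintro ⟨f, hf, hp⟩
  exact h ⟨f, hf, fun p h1 h2 => hp p.1 p.2 h1 h2⟩

end Pool.Agent.Results.MP_d61eec_lc.FreeGroupPCPUndecidable
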